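import Pool.Agent.CSM.U.InterpP
import Pool.Agent.CSM.U.Inst
import Pool.Agent.CSM.U.Main

/-!
# Equivariant positivity of CSM classes of Schubert cells, all types

`L` is a complex semisimple Lie algebra, `H` a Cartan subalgebra, `b` a base of the root system of
`(L, H)` (equivalently: a semisimple group `G` with Lie algebra `L`, a maximal torus and a Borel
subgroup).  `SymmetricAlgebra ℂ (Dual ℂ H) = H_T^*(pt; ℂ)`.  `X w u` and `C w u` are the
localisations at the torus fixed point `u` of `[X(w)]_T` and of `c_SM^T(X(w)°)`; each of the two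
families is characterised in two ways, class by class by interpolation and by the recursions of
Bernstein-Gelfand-Gelfand and of Aluffi-Mihalcea.
-/

open LieAlgebra LieAlgebra.IsKilling LieModule Module Pool.Agent.CSM.U

namespace Pool.Agent.Results.MP_cc8dc6_ag.CSMPositivity

/-- The positivity statement for the flag variety of a root system `P` with base `b`:
`X w` is the localised equivariant Schubert class `[X(w)]_T`, `C w` the localised equivariant CSM
class `c_SM^T(X(w)°)`, and the (unique) coefficients `c v` of the expansion of `C w` in the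
Schubert basis are polynomials in the simple roots with nonnegative integer coefficients. -/
def EquivariantPositivity {ι K M N : Type*} [Fintype ι] [Field K] [CharZero K] [AddCommGroup M]
    [Module K M] [AddCommGroup N] [Module K N] (P : RootPairing ι K M N) (b : P.Base)
    [Fintype P.weylGroup] : Prop :=
  ∃ X C : P.weylGroup → P.weylGroup → SymmetricAlgebra K M,
    (∀ w f, IsSchubertClass b w f ↔ f = X w) ∧ (∀ X', IsSchubertFamily b X' ↔ X' = X) ∧
    (∀ w f, IsCSMClass b w f ↔ f = C w) ∧ (∀ C', IsCSMFamily b C' ↔ C' = C) ∧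
    ∀ w, ∃ c : P.weylGroup → SymmetricAlgebra K M,
      (∀ v, c v ∈ posCone b) ∧ (∀ u, C w u = ∑ v, c v * X v u) ∧
      ∀ c' : P.weylGroup → SymmetricAlgebra K M, (∀ u, C w u = ∑ v, c' v * X v u) → c' = c

theorem result (L : Type) [LieRing L] [LieAlgebra ℂ L] [FiniteDimensional ℂ L]
    [LieAlgebra.IsKilling ℂ L] (H : LieSubalgebra ℂ L) [H.IsCartanSubalgebra]
    (b : (rootSystem H).Base) [Fintype (rootSystem H).weylGroup] :
    EquivariantPositivity (rootSystem H) b := by
  obtain ⟨X, hX, hX'⟩ := existsUnique_schubert b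
  obtain ⟨C, hC, hC'⟩ := existsUnique_csm b
  refine ⟨X, C, fun w f => ⟨fun h => ?_, fun h => ?_⟩, fun X' => ⟨hX' X', fun h => h ▸ hX⟩,
    fun w f => ⟨fun h => ?_, fun h => ?_⟩, fun C' => ⟨hC' C', fun h => h ▸ hC⟩, fun w => ?_⟩
  · exact (existsUnique_schubertClass b w).unique h ((isSchubertFamily_iff b).1 hX w)
  · rw [h]; exact (isSchubertFamily_iff b).1 hX w
  · exact (existsUnique_csmClass b w).unique h ((isCSMFamily_iff b).1 hC w)
  · rw [h]; exact (isCSMFamily_iff b).1 hC w
  · exact positivity_P b (@posStmt_of_LD b.support _ (instDec b) (RD.ofBase b) ℂ _ _ L _ _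
      (killingLD b)) hX hC w

end Pool.Agent.Results.MP_cc8dc6_ag.CSMPositivity
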